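import Mathlib

namespace Pool.Agent.Results.MP_b1d502_nt.NotFinite

/-- distance from `x` to the nearest integer -/
noncomputable def nrm (x : ℝ) : ℝ := |x - round x|

/-- a speed set: pairwise distinct positive integers -/
def IsSpeed {k : ℕ} (s : Fin k → ℕ) : Prop := Function.Injective s ∧ ∀ i, 0 < s i

/-- the set `A(s)` -/
def A {k : ℕ} (s : Fin k → ℕ) : Set (Fin k → ℝ) :=
  {d | (∀ i, 0 < d i ∧ d i ≤ 1 / 2) ∧ ∃ t : ℝ, ∀ i, d i ≤ nrm (s i * t)}

/-- the mixed loneliness parameter space -/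
def MLPS (k : ℕ) : Set (Fin k → ℝ) := ⋂ s ∈ {s : Fin k → ℕ | IsSpeed s}, A s

lemma le_nrm (x c : ℝ) (m : ℤ) (h1 : m + c ≤ x) (h2 : x ≤ m + 1 - c) : c ≤ nrm x := by
  unfold nrm
  rcases le_or_gt (round x) m with h | h
  · have : ((round x : ℤ) : ℝ) ≤ m := by exact_mod_cast h
    rw [le_abs]; left; linarith
  · have : (m : ℝ) + 1 ≤ (round x : ℤ) := by exact_mod_cast h
    rw [le_abs]; right; linarith

lemma other (N a b : ℕ) (ha : 0 < a) (hb : 0 < b) (h : 2 * a + b ≤ N) :
    1 / (N : ℝ) ≤ nrm (b * ((N + 1) / (2 * N * a))) := by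
  have hN : (0 : ℝ) < N := by exact_mod_cast (by omega : 0 < N)
  have ha' : (0 : ℝ) < a := by exact_mod_cast ha
  have hb' : (0 : ℝ) < b := by exact_mod_cast hb
  have h' : 2 * (a : ℝ) + b ≤ N := by exact_mod_cast h
  obtain ⟨q, r, hr, e⟩ : ∃ q r : ℕ, r < 2 * a ∧ b = 2 * a * q + r :=
    ⟨b / (2 * a), b % (2 * a), Nat.mod_lt _ (by omega), (Nat.div_add_mod _ _).symm⟩
  have e' : (b : ℝ) = 2 * a * q + r := by exact_mod_cast e
  have hr' : (r : ℝ) + 1 ≤ 2 * a := by exact_mod_cast hr
  have key : (b : ℝ) * ((N + 1) / (2 * N * a)) = q + (r * N + b) / (2 * N * a) := by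
    field_simp
    rw [e']; ring
  have hD : (0 : ℝ) < 2 * N * a := by positivity
  have e1 : 1 / (N : ℝ) = 2 * a / (2 * N * a) := by field_simp
  apply le_nrm _ _ (q : ℤ)
  · rw [key, e1]
    push_cast
    have : 2 * (a : ℝ) ≤ r * N + b := by
      rcases Nat.eq_zero_or_pos r with h0 | h0
      · subst h0
        have hq : 1 ≤ q := by
          rcases Nat.eq_zero_or_pos q with h1 | h1
          · subst h1; omega
          · exact h1
        have hq' : (1 : ℝ) ≤ q := by exact_mod_cast hq
        push_cast at e' ⊢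
        nlinarith
      · have : (1 : ℝ) ≤ r := by exact_mod_cast h0
        nlinarith
    have := div_le_div_of_nonneg_right this hD.le
    linarith
  · rw [key, e1]
    push_cast
    have : (r * N + b : ℝ) / (2 * N * a) + 2 * a / (2 * N * a) ≤ 1 := by
      rw [← add_div, div_le_one hD]
      nlinarith
    linarith

/-- For every `k ≥ 3` and every finite family `F` of speed sets of length `k` there is a point
`d ∈ (0, 1/2]^k` lying in `A(s)` for all `s ∈ F` but not in `MLPS_k`. -/
theorem result : ∀ k : ℕ, 3 ≤ k → ∀ F : Set (Fin k → ℕ), F.Finite → (∀ s ∈ F, IsSpeed s) →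
    ∃ d : Fin k → ℝ, (∀ i, 0 < d i ∧ d i ≤ 1 / 2) ∧ d ∈ (⋂ s ∈ F, A s) ∧ d ∉ MLPS k := by
  intro k hk F hF hs
  obtain ⟨B, hB⟩ : ∃ B : ℕ, ∀ s ∈ F, ∀ i, s i ≤ B := by
    obtain ⟨g, hg⟩ := hF.bddAbove
    refine ⟨Finset.univ.sup g, fun s hs i => (hg hs i).trans ?_⟩
    exact Finset.le_sup (f := g) (Finset.mem_univ i)
  obtain ⟨N, hNB, hNk⟩ : ∃ N : ℕ, 3 * B ≤ N ∧ k ≤ N := ⟨3 * B + k, by omega, by omega⟩
  have hN3 : (3 : ℝ) ≤ N := by exact_mod_cast hk.trans hNk
  have hN : (0 : ℝ) < N := by linarith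
  let d : Fin k → ℝ := fun i => if i.val = 0 then 1 / 2 - 1 / (2 * N) else 1 / N
  have h2N : 1 / (2 * (N : ℝ)) ≤ 1 / 6 := one_div_le_one_div_of_le (by norm_num) (by linarith)
  have h2N' : 0 < 1 / (2 * (N : ℝ)) := by positivity
  have h1N : 1 / (N : ℝ) = 2 * (1 / (2 * (N : ℝ))) := by field_simp
  have hd : ∀ i, 0 < d i ∧ d i ≤ 1 / 2 := by
    intro i
    simp only [d]
    split_ifs <;> constructor <;> linarith
  let i0 : Fin k := ⟨0, by omega⟩
  let i1 : Fin k := ⟨1, by omega⟩
  let i2 : Fin k := ⟨2, by omega⟩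
  refine ⟨d, hd, ?_, ?_⟩
  · simp only [Set.mem_iInter]
    intro s hsF
    have hp := (hs s hsF).2
    refine ⟨hd, (N + 1) / (2 * N * s i0), fun i => ?_⟩
    by_cases hi : i.val = 0
    · have : i = i0 := Fin.ext hi
      subst this
      have h0 : (0 : ℝ) < s i0 := by exact_mod_cast hp i0
      have : (s i0 : ℝ) * ((N + 1) / (2 * N * s i0)) = 1 / 2 + 1 / (2 * N) := by field_simp
      rw [this]
      simp only [d, i0, if_true]
      apply le_nrm _ _ 0 <;> push_cast <;> linarith
    · simp only [d, hi, if_false]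
      have a1 := hB s hsF i
      have a2 := hB s hsF i0
      exact other N (s i0) (s i) (hp i0) (hp i) (by omega)
  · intro h
    simp only [MLPS, Set.mem_iInter] at h
    let s : Fin k → ℕ := fun i => if i.val = 2 then 2 * N else i.val + 1
    have hsp : IsSpeed s := by
      refine ⟨fun i j hij => Fin.ext ?_, fun i => ?_⟩
      · have a1 := i.2
        have a2 := j.2
        simp only [s] at hij
        split_ifs at hij <;> omega
      · simp only [s]
        split_ifs <;> omega
    obtain ⟨_, t, ht⟩ := h s hsp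
    have a0 := ht i0
    have a1 := ht i1
    have a2 := ht i2
    simp only [d, s, i0, i1, i2, nrm] at a0 a1 a2
    norm_num at a0 a1 a2
    have e : (N : ℝ)⁻¹ = 1 / N := by simp
    have e2 : (N : ℝ)⁻¹ * (1 / 2) = 1 / (2 * N) := by field_simp
    have hNN : 2 * (N : ℝ) * (1 / (2 * N)) = 1 := by field_simp
    rw [e2] at a0
    rw [e, h1N] at a1 a2
    have b := abs_le.mp (abs_sub_round t)
    set u : ℝ := 1 / (2 * N) with hu
    have c1 := a1.trans (round_le (2 * t) (2 * round t + 1))
    have c2 := a1.trans (round_le (2 * t) (2 * round t - 1))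
    have c3 := a2.trans (round_le (2 * N * t) (2 * N * round t + N - 1))
    have c4 := a2.trans (round_le (2 * N * t) (2 * N * round t - N + 1))
    push_cast at c1 c2 c3 c4
    have a0' : 1 / 2 - u ≤ |t - round t| := by linarith
    rcases le_abs.mp a0' with h | h
    · have : t = round t + 1 / 2 - u := by
        rcases le_abs.mp c1 with h' | h' <;> linarith
      have : 2 * N * t - (2 * N * round t + N - 1) = 0 := by
        have h3 : 2 * N * t = 2 * N * (round t + 1 / 2 - u) := by rw [← this]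
        linarith
      rw [this, abs_zero] at c3
      linarith
    · have : t = round t - 1 / 2 + u := by
        rcases le_abs.mp c2 with h' | h' <;> linarith
      have : 2 * N * t - (2 * N * round t - N + 1) = 0 := by
        have h3 : 2 * N * t = 2 * N * (round t - 1 / 2 + u) := by rw [← this]
        linarith
      rw [this, abs_zero] at c4
      linarith

end Pool.Agent.Results.MP_b1d502_nt.NotFinite
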